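import Pool.Agent.Lib.MP_817dae_lc.Main

set_option autoImplicit false

namespace Pool.Agent.Results.MP_817dae_lc.NoAnalyticMED

/-- a proper ideal on the natural numbers containing all finite sets -/
def IsIdeal (I : Set (Set ℕ)) : Prop :=
  (∀ A ∈ I, ∀ B : Set ℕ, B ⊆ A → B ∈ I) ∧ (∀ A ∈ I, ∀ B ∈ I, A ∪ B ∈ I) ∧ Set.univ ∉ I ∧
    ∀ A : Set ℕ, A.Finite → A ∈ I

/-- a maximal ideal -/
def IsMaximalIdeal (I : Set (Set ℕ)) : Prop :=
  IsIdeal I ∧ ∀ J : Set (Set ℕ), IsIdeal J → I ⊆ J → J = I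

/-- an `I`-maximal eventually different family -/
def IsMED (I : Set (Set ℕ)) (E : Set (ℕ → ℕ)) : Prop :=
  (∀ f ∈ E, ∀ g ∈ E, f ≠ g → {n | f n = g n} ∈ I) ∧ ∀ h : ℕ → ℕ, ∃ f ∈ E, {n | f n = h n} ∉ I

theorem result : ∃ I : Set (Set ℕ), IsMaximalIdeal I ∧
    ∀ E : Set (ℕ → ℕ), MeasureTheory.AnalyticSet E → ¬ IsMED I E := by
  obtain ⟨U, hU, hK⟩ := Lib.MP_817dae_lc.exists_ultrafilter
  refine ⟨{A | A ∉ U}, ⟨⟨fun A hA B hBA hB => hA (Filter.mem_of_superset hB hBA),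
    fun A hA B hB h => (Ultrafilter.union_mem_iff.1 h).elim hA hB,
    fun h => h Filter.univ_mem, fun A hA => ?_⟩, fun J hJ hIJ => ?_⟩, fun E hE h => ?_⟩
  · exact Ultrafilter.compl_mem_iff_notMem.1 (hU hA.compl_mem_cofinite)
  · refine Set.Subset.antisymm (fun A hA hAU => hJ.2.2.1 ?_) hIJ
    rw [← Set.union_compl_self A]
    exact hJ.2.1 A hA _ (hIJ (Ultrafilter.compl_notMem_iff.2 hAU))
  · rcases hK E hE with ⟨f, hf, g, hg, h1, h2⟩ | ⟨k, hk⟩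
    · exact h.1 f hf g hg h1 h2
    · obtain ⟨f, hf, h3⟩ := h.2 k
      exact h3 (Ultrafilter.compl_mem_iff_notMem.1 (hk f hf))

end Pool.Agent.Results.MP_817dae_lc.NoAnalyticMED
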